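import Mathlib
import Pool.Agent.R859.UB.Main

/-!
# The closed balls of positive radius determine the completion of an ultrametric space

Two ultrametric spaces have isometric completions if and only if their sets of closed balls of
positive radius, with the Hausdorff distances, are isometric.
-/

set_option autoImplicit false

namespace Pool.Agent.Results.MP_856f66_gt.CompletionsIffBalls

open Pool.Agent.R859.UB

universe u v

theorem result (X : Type u) (Y : Type v) [MetricSpace X] [IsUltrametricDist X] [MetricSpace Y]
    [IsUltrametricDist Y] :
    Nonempty (UniformSpace.Completion X ≃ᵢ UniformSpace.Completion Y) ↔ BallIsometric X Y :=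
  main

end Pool.Agent.Results.MP_856f66_gt.CompletionsIffBalls
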